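import Pool.Agent.H5.FL.Stm4

set_option autoImplicit false

open MeasureTheory ProbabilityTheory Filter Topology
open scoped NNReal ENNReal

universe u

namespace H70.FL

open H5.FL

abbrev EE (N : ℕ) := (Fin N → ℝ) × (Fin N → ℝ)

/-- modulus of continuity with a fourth power -/
lemma modulus {N : ℕ} (φ : EE N → ℝ) (hφ : Continuous φ) (C : ℝ) (hC : ∀ z, |φ z| ≤ C)
    (R ε : ℝ) (hε : 0 < ε) : ∃ K : ℝ, 0 ≤ K ∧ ∀ z z' : EE N, ‖z‖ ≤ R →
      |φ z' - φ z| ≤ ε + K * ‖z' - z‖ ^ 4 := by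
  have hC0 : 0 ≤ C := (abs_nonneg _).trans (hC 0)
  have hcomp : IsCompact (Metric.closedBall (0 : EE N) (R + 1)) := isCompact_closedBall _ _
  have huc := hcomp.uniformContinuousOn_of_continuous hφ.continuousOn
  obtain ⟨δ, hδ, hδ2⟩ := Metric.uniformContinuousOn_iff.1 huc ε hε
  set δ' := min δ 1 with hδ'
  have hδ'0 : 0 < δ' := lt_min hδ one_pos
  refine ⟨2 * C / δ' ^ 4, by positivity, ?_⟩
  intro z z' hz
  by_cases h : ‖z' - z‖ < δ'
  · have h1 : z ∈ Metric.closedBall (0 : EE N) (R + 1) := by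
      rw [mem_closedBall_zero_iff]; linarith
    have h2 : z' ∈ Metric.closedBall (0 : EE N) (R + 1) := by
      rw [mem_closedBall_zero_iff]
      have : ‖z'‖ ≤ ‖z' - z‖ + ‖z‖ := by
        have := norm_add_le (z' - z) z
        simpa using this
      have h3 : δ' ≤ 1 := min_le_right _ _
      linarith
    have h4 := hδ2 z' h2 z h1 (by rw [dist_eq_norm]; exact lt_of_lt_of_le h (min_le_left _ _))
    rw [Real.dist_eq] at h4
    have h5 : 0 ≤ 2 * C / δ' ^ 4 * ‖z' - z‖ ^ 4 := by positivity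
    linarith
  · push Not at h
    have h6 : δ' ^ 4 ≤ ‖z' - z‖ ^ 4 := by gcongr
    have h7 : 2 * C ≤ 2 * C / δ' ^ 4 * ‖z' - z‖ ^ 4 := by
      rw [div_mul_eq_mul_div, le_div_iff₀ (by positivity)]
      gcongr
    have h8 : |φ z' - φ z| ≤ 2 * C := by
      have := abs_sub (φ z') (φ z)
      have := hC z'
      have := hC z
      linarith
    linarith

/-- bounds of the derivatives on balls -/
lemma deriv_bdd {N : ℕ} (f : EE N → ℝ) (hf : ContDiff ℝ 2 f) (R : ℝ) :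
    ∃ K : ℝ, 0 ≤ K ∧ ∀ z : EE N, ‖z‖ ≤ R → ‖fderiv ℝ f z‖ ≤ K ∧
      ‖fderiv ℝ (fderiv ℝ f) z‖ ≤ K := by
  have hcomp : IsCompact (Metric.closedBall (0 : EE N) R) := isCompact_closedBall _ _
  have c1 : Continuous (fderiv ℝ f) := hf.continuous_fderiv (by norm_num)
  have c1' : ContDiff ℝ 1 (fderiv ℝ f) := hf.fderiv_right (by norm_num)
  have c2 := c1'.continuous_fderiv (by norm_num)
  have c3 : Continuous fun z => ‖fderiv ℝ (fderiv ℝ f) z‖ := c2.norm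
  obtain ⟨K1, hK1⟩ := hcomp.exists_bound_of_continuousOn (f := fun z => ‖fderiv ℝ f z‖)
    c1.norm.continuousOn
  obtain ⟨K2, hK2⟩ := hcomp.exists_bound_of_continuousOn
    (f := fun z => ‖fderiv ℝ (fderiv ℝ f) z‖) c3.continuousOn
  refine ⟨max 0 (max K1 K2), le_max_left _ _, ?_⟩
  intro z hz
  have hz' : z ∈ Metric.closedBall (0 : EE N) R := by rwa [mem_closedBall_zero_iff]
  exact ⟨((Real.le_norm_self _).trans (hK1 z hz')).trans ((le_max_left _ _).trans (le_max_right _ _)),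
    ((Real.le_norm_self _).trans (hK2 z hz')).trans ((le_max_right _ _).trans (le_max_right _ _))⟩

/-- Taylor with a fourth power -/
lemma taylor4 (hT : S_TAY) {N : ℕ} (f : EE N → ℝ) (hf : ContDiff ℝ 2 f) (C : ℝ)
    (hC : ∀ z, |f z| ≤ C) (R ε : ℝ) (hε : 0 < ε) : ∃ K : ℝ, 0 ≤ K ∧ ∀ z d : EE N, ‖z‖ ≤ R →
      |f (z + d) - f z - fderiv ℝ f z d - (1 / 2) * fderiv ℝ (fderiv ℝ f) z d d| ≤
        ε * ‖d‖ ^ 2 + K * ‖d‖ ^ 4 := by
  have hC0 : 0 ≤ C := (abs_nonneg _).trans (hC 0)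
  obtain ⟨δ, hδ, hδ1, hδ2⟩ := hT N f hf R ε hε
  obtain ⟨K, hK, hK2⟩ := deriv_bdd f hf R
  refine ⟨(2 * C + 2 * K) / δ ^ 4, by positivity, ?_⟩
  intro z d hz
  by_cases h : ‖d‖ ≤ δ
  · have := hδ2 z d hz h
    have h5 : 0 ≤ (2 * C + 2 * K) / δ ^ 4 * ‖d‖ ^ 4 := by positivity
    linarith
  · push Not at h
    have hx0 : 0 ≤ ‖d‖ := norm_nonneg _
    obtain ⟨h1, h2⟩ := hK2 z hz
    have e1 : |fderiv ℝ f z d| ≤ K * ‖d‖ := by
      have := (fderiv ℝ f z).le_opNorm d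
      rw [Real.norm_eq_abs] at this
      exact this.trans (by gcongr)
    have e2 : |fderiv ℝ (fderiv ℝ f) z d d| ≤ K * ‖d‖ ^ 2 := by
      have a1 := (fderiv ℝ (fderiv ℝ f) z d).le_opNorm d
      have a2 := (fderiv ℝ (fderiv ℝ f) z).le_opNorm d
      rw [Real.norm_eq_abs] at a1
      calc |fderiv ℝ (fderiv ℝ f) z d d| ≤ ‖fderiv ℝ (fderiv ℝ f) z d‖ * ‖d‖ := a1
        _ ≤ (K * ‖d‖) * ‖d‖ := by
            gcongr
            exact a2.trans (by gcongr)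
        _ = K * ‖d‖ ^ 2 := by ring
    set y : ℝ := ‖d‖ / δ with hy
    have hy1 : 1 ≤ y := by rw [hy, le_div_iff₀ hδ]; linarith
    have hxy : ‖d‖ ≤ y := by
      rw [hy, le_div_iff₀ hδ]
      nlinarith
    have hy4 : (2 * C + 2 * K) / δ ^ 4 * ‖d‖ ^ 4 = (2 * C + 2 * K) * y ^ 4 := by
      rw [hy, div_pow]; ring
    have hy2 : (1 : ℝ) ≤ y ^ 2 := one_le_pow₀ hy1
    have hy3 : (1 : ℝ) ≤ y ^ 3 := one_le_pow₀ hy1
    have hy5 : (1 : ℝ) ≤ y ^ 4 := one_le_pow₀ hy1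
    have f1 : ‖d‖ ≤ y ^ 4 := by
      calc ‖d‖ ≤ y := hxy
        _ = y * 1 := by ring
        _ ≤ y * y ^ 3 := by gcongr
        _ = y ^ 4 := by ring
    have f2 : ‖d‖ ^ 2 ≤ y ^ 4 := by
      calc ‖d‖ ^ 2 ≤ y ^ 2 := by gcongr
        _ = y ^ 2 * 1 := by ring
        _ ≤ y ^ 2 * y ^ 2 := by gcongr
        _ = y ^ 4 := by ring
    rw [hy4]
    have t0 : |f (z + d) - f z - fderiv ℝ f z d - (1 / 2) * fderiv ℝ (fderiv ℝ f) z d d| ≤
        |f (z + d)| + |f z| + |fderiv ℝ f z d| + (1 / 2) * |fderiv ℝ (fderiv ℝ f) z d d| := by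
      have b1 := abs_sub (f (z + d) - f z - fderiv ℝ f z d)
        ((1 / 2) * fderiv ℝ (fderiv ℝ f) z d d)
      have b2 := abs_sub (f (z + d) - f z) (fderiv ℝ f z d)
      have b3 := abs_sub (f (z + d)) (f z)
      rw [abs_mul, abs_of_pos (by norm_num : (0 : ℝ) < 1 / 2)] at b1
      linarith
    have t1 := hC (z + d)
    have t2 := hC z
    have t3 : K * ‖d‖ ≤ K * y ^ 4 := by gcongr
    have t4 : K * ‖d‖ ^ 2 ≤ K * y ^ 4 := by gcongr
    have t5 : 2 * C ≤ 2 * C * y ^ 4 := by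
      nlinarith
    have t6 : 0 ≤ ε * ‖d‖ ^ 2 := by positivity
    have t7 : 0 ≤ K * y ^ 4 := by positivity
    nlinarith

end H70.FL
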