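import Pool.Agent.H70.FL.Aux1
import Pool.Agent.H78.FL.CLK

set_option autoImplicit false

open MeasureTheory ProbabilityTheory Filter Topology
open scoped NNReal ENNReal

universe u

namespace H70.FL

open H5.FL

variable {N : ℕ} {μ : ℝ} {Ω : Type u} [mΩ : MeasurableSpace Ω] {P : Measure Ω}

lemma prog_full (π : BPolicy N μ Ω P) : IsProgressive π.full π.J := by
  intro t
  refine (π.J_prog t).mono ?_ le_rfl
  exact sup_le_sup le_rfl (MeasurableSpace.comap_mono (π.obs_le t))

lemma J_path (π : BPolicy N μ Ω P) (ω : Ω) : Measurable fun r : ℝ => π.J r.toNNReal ω :=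
  (H78.FL.J_joint π.obs π.J π.J_prog).comp (measurable_real_toNNReal.prodMk measurable_const)

lemma ind_int (π : BPolicy N μ Ω P) (ω : Ω) (j : Fin N) (a b : ℝ) :
    IntervalIntegrable (fun r : ℝ => if π.J r.toNNReal ω = j then (1 : ℝ) else 0) volume a b := by
  have hF : Measurable fun r : ℝ => if π.J r.toNNReal ω = j then (1 : ℝ) else 0 :=
    Measurable.ite (J_path π ω (measurableSet_singleton j)) measurable_const measurable_const
  refine (intervalIntegrable_const (c := (1 : ℝ))).mono_fun hF.aestronglyMeasurable ?_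
  refine Filter.Eventually.of_forall (fun s => ?_)
  simp only
  split_ifs <;> simp

lemma dclock_eq (π : BPolicy N μ Ω P) (ω : Ω) (j : Fin N) (s t : ℝ≥0) :
    clock π.J t ω j - clock π.J s ω j =
      ∫ r in (s : ℝ)..t, if π.J r.toNNReal ω = j then (1 : ℝ) else 0 := by
  unfold clock
  rw [intervalIntegral.integral_interval_sub_left (ind_int π ω j _ _) (ind_int π ω j _ _)]

lemma dclock_nonneg (π : BPolicy N μ Ω P) (ω : Ω) (j : Fin N) {s t : ℝ≥0} (h : s ≤ t) :
    0 ≤ clock π.J t ω j - clock π.J s ω j := by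
  rw [dclock_eq]
  refine intervalIntegral.integral_nonneg (by exact_mod_cast h) ?_
  intro r _
  split_ifs <;> norm_num

lemma dclock_le (π : BPolicy N μ Ω P) (ω : Ω) (j : Fin N) {s t : ℝ≥0} (h : s ≤ t) :
    clock π.J t ω j - clock π.J s ω j ≤ (t : ℝ) - s := by
  rw [dclock_eq]
  have hst : (s : ℝ) ≤ t := by exact_mod_cast h
  have h1 : ∫ r in (s : ℝ)..t, (if π.J r.toNNReal ω = j then (1 : ℝ) else 0) ≤
      ∫ r in (s : ℝ)..t, (1 : ℝ) := by
    refine intervalIntegral.integral_mono_on hst (ind_int π ω j _ _) intervalIntegrable_const ?_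
    intro r _
    split_ifs <;> norm_num
  simpa using h1

lemma clock_meas (π : BPolicy N μ Ω P) (t : ℝ≥0) : Measurable[π.full t] (clock π.J t) :=
  (H78.FL.clock_measurable (π.obs t) π.J t (π.J_prog t)).mono (π.obs_le t) le_rfl

lemma X_meas (π : BPolicy N μ Ω P) (t : ℝ≥0) : Measurable[π.full t] (π.X t) :=
  (π.X_adapted t).mono (π.obs_le t) le_rfl

lemma M_meas (π : BPolicy N μ Ω P) (t : ℝ≥0) : Measurable (π.M t) :=
  (π.M_adapted t).mono (π.full.le t) le_rfl

lemma M_joint (π : BPolicy N μ Ω P) : Measurable (Function.uncurry π.M) :=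
  measurable_uncurry_of_continuous_of_measurable π.M_cont (fun t => M_meas π t)

/-- the Fubini estimate -/
lemma fubini4 [IsProbabilityMeasure P] (hI : S_IT2.{u}) (π : BPolicy N μ Ω P) {s t : ℝ≥0}
    (h : s ≤ t) (j : Fin N) :
    Integrable (fun ω => ∫ r in (s : ℝ)..t, (π.M r.toNNReal ω j - π.M s ω j) ^ 4) P ∧
    ∫ ω, (∫ r in (s : ℝ)..t, (π.M r.toNNReal ω j - π.M s ω j) ^ 4) ∂P ≤
      3 * ((t : ℝ) - s) ^ 3 := by
  have hst : (s : ℝ) ≤ t := by exact_mod_cast h
  set Q : ℝ × Ω → ℝ := fun p => (π.M p.1.toNNReal p.2 j - π.M s p.2 j) ^ 4 with hQ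
  have hQm : Measurable Q := by
    refine Measurable.pow_const (Measurable.sub ?_ ?_) 4
    · have h1 : Measurable fun p : ℝ × Ω => π.M p.1.toNNReal p.2 :=
        (M_joint π).comp ((measurable_fst.real_toNNReal).prodMk measurable_snd)
      exact (measurable_pi_apply j).comp h1
    · have h1 : Measurable fun p : ℝ × Ω => π.M s p.2 := (M_meas π s).comp measurable_snd
      exact (measurable_pi_apply j).comp h1
  have hIT : ∀ r : ℝ, r ∈ Set.Ioc (s : ℝ) t → Integrable (fun ω => Q (r, ω)) P ∧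
      ∫ ω, Q (r, ω) ∂P ≤ 3 * ((t : ℝ) - s) ^ 2 := by
    intro r hr
    have hr0 : 0 ≤ r := (NNReal.coe_nonneg s).trans hr.1.le
    have hsr : s ≤ r.toNNReal := by
      exact NNReal.le_toNNReal_of_coe_le hr.1.le
    have := hI N Ω P π.full π.W π.W_fbm π.J π.M (prog_full π) π.M_adapted π.M_ito s r.toNNReal hsr j j
    refine ⟨this.1, this.2.1.trans ?_⟩
    rw [Real.coe_toNNReal r hr0]
    have h1 : 0 ≤ r - (s : ℝ) := by linarith [hr.1]
    have h2 : r - (s : ℝ) ≤ (t : ℝ) - s := by linarith [hr.2]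
    gcongr
  have hQ0 : ∀ p, 0 ≤ Q p := fun p => by
    simp only [hQ]
    positivity
  have hint : Integrable Q ((volume.restrict (Set.Ioc (s : ℝ) t)).prod P) := by
    rw [integrable_prod_iff hQm.aestronglyMeasurable]
    constructor
    · rw [ae_restrict_iff' measurableSet_Ioc]
      exact Filter.Eventually.of_forall fun r hr => (hIT r hr).1
    · refine Integrable.mono' (g := fun _ => 3 * ((t : ℝ) - s) ^ 2) (integrable_const _)
        (hQm.stronglyMeasurable.norm.integral_prod_right').aestronglyMeasurable ?_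
      rw [ae_restrict_iff' measurableSet_Ioc]
      refine Filter.Eventually.of_forall fun r hr => ?_
      have h1 : ∀ ω, ‖Q (r, ω)‖ = Q (r, ω) := fun ω => by
        rw [Real.norm_eq_abs, abs_of_nonneg (hQ0 _)]
      simp only [h1]
      rw [Real.norm_eq_abs, abs_of_nonneg (integral_nonneg fun ω => hQ0 _)]
      exact (hIT r hr).2
  have hconv : ∀ ω, ∫ r in (s : ℝ)..t, (π.M r.toNNReal ω j - π.M s ω j) ^ 4 =
      ∫ r in Set.Ioc (s : ℝ) t, Q (r, ω) := fun ω => by
    rw [intervalIntegral.integral_of_le hst]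
  simp only [hconv]
  refine ⟨hint.integral_prod_right, ?_⟩
  have hswap : ∫ ω, (∫ r in Set.Ioc (s : ℝ) t, Q (r, ω)) ∂P =
      ∫ r in Set.Ioc (s : ℝ) t, (∫ ω, Q (r, ω) ∂P) :=
    (integral_integral_swap (f := fun r ω => Q (r, ω)) hint).symm
  rw [hswap]
  have h2 : ∫ r in Set.Ioc (s : ℝ) t, (∫ ω, Q (r, ω) ∂P) ≤
      ∫ r in Set.Ioc (s : ℝ) t, 3 * ((t : ℝ) - s) ^ 2 := by
    refine integral_mono_of_nonneg ?_ (integrable_const _) ?_
    · exact Filter.Eventually.of_forall fun r => integral_nonneg fun ω => hQ0 _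
    · rw [Filter.EventuallyLE, ae_restrict_iff' measurableSet_Ioc]
      exact Filter.Eventually.of_forall fun r hr => (hIT r hr).2
  refine h2.trans (le_of_eq ?_)
  rw [setIntegral_const]
  simp only [Measure.real, Real.volume_Ioc, smul_eq_mul]
  rw [ENNReal.toReal_ofReal (by linarith)]
  ring

end H70.FL
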