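import Pool.Agent.H70.FL.Aux2

set_option autoImplicit false

open MeasureTheory ProbabilityTheory Filter Topology
open scoped NNReal ENNReal

universe u

namespace H70.FL

open H5.FL

variable {N : ℕ} {μ : ℝ} {Ω : Type u} [mΩ : MeasurableSpace Ω] {P : Measure Ω}

noncomputable def Zp (π : BPolicy N μ Ω P) (t : ℝ≥0) (ω : Ω) : EE N := (π.X t ω, clock π.J t ω)

noncomputable def dM (π : BPolicy N μ Ω P) (s t : ℝ≥0) (ω : Ω) (j : Fin N) : ℝ :=
  π.M t ω j - π.M s ω j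

noncomputable def dc (π : BPolicy N μ Ω P) (s t : ℝ≥0) (ω : Ω) (j : Fin N) : ℝ :=
  clock π.J t ω j - clock π.J s ω j

/-- the drift part of the increment -/
noncomputable def vv (π : BPolicy N μ Ω P) (s t : ℝ≥0) (ω : Ω) : EE N :=
  (fun j => (if π.jstar ω = j then μ else 0) * dc π s t ω j, dc π s t ω)

lemma inc_eq (π : BPolicy N μ Ω P) (s t : ℝ≥0) (ω : Ω) :
    Zp π t ω - Zp π s ω = (dM π s t ω, 0) + vv π s t ω := by
  unfold Zp vv dM dc
  ext j
  · simp only [Prod.fst_sub, Pi.sub_apply, Prod.fst_add, Pi.add_apply]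
    rw [π.X_eq, π.X_eq]
    split_ifs <;> ring
  · simp

lemma vv_le (π : BPolicy N μ Ω P) {s t : ℝ≥0} (h : s ≤ t) (ω : Ω) :
    ‖vv π s t ω‖ ≤ (|μ| + 1) * ((t : ℝ) - s) := by
  have hst : (0 : ℝ) ≤ (t : ℝ) - s := sub_nonneg.2 (by exact_mod_cast h)
  have h0 : 0 ≤ (|μ| + 1) * ((t : ℝ) - s) := by positivity
  unfold vv
  rw [Prod.norm_def]
  refine max_le ?_ ?_
  · rw [pi_norm_le_iff_of_nonneg h0]
    intro j
    have h1 := dclock_nonneg π ω j h
    have h2 := dclock_le π ω j h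
    rw [Real.norm_eq_abs, abs_mul]
    have h3 : |dc π s t ω j| ≤ (t : ℝ) - s := by
      unfold dc; rw [abs_of_nonneg h1]; exact h2
    have h4 : |if π.jstar ω = j then μ else 0| ≤ |μ| + 1 := by
      split_ifs
      · linarith
      · rw [abs_zero]; positivity
    gcongr
  · rw [pi_norm_le_iff_of_nonneg h0]
    intro j
    have h1 := dclock_nonneg π ω j h
    have h2 := dclock_le π ω j h
    rw [Real.norm_eq_abs]
    unfold dc
    rw [abs_of_nonneg h1]
    have : 0 ≤ |μ| * ((t : ℝ) - s) := by positivity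
    linarith

lemma dM_le (π : BPolicy N μ Ω P) (s t : ℝ≥0) (ω : Ω) :
    ‖((dM π s t ω, 0) : EE N)‖ ≤ ∑ j, |dM π s t ω j| := by
  have h0 : 0 ≤ ∑ j, |dM π s t ω j| := Finset.sum_nonneg fun _ _ => abs_nonneg _
  rw [Prod.norm_def]
  refine max_le ?_ (by simpa using h0)
  rw [pi_norm_le_iff_of_nonneg h0]
  intro j
  rw [Real.norm_eq_abs]
  exact Finset.single_le_sum (f := fun j => |dM π s t ω j|) (fun _ _ => abs_nonneg _)
    (Finset.mem_univ j)

lemma sum_sq_le (x : Fin N → ℝ) : (∑ j, |x j|) ^ 2 ≤ N * ∑ j, x j ^ 2 := by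
  have := sq_sum_le_card_mul_sum_sq (s := (Finset.univ : Finset (Fin N))) (f := fun j => |x j|)
  simpa using this

lemma sum_four_le (x : Fin N → ℝ) : (∑ j, |x j|) ^ 4 ≤ (N : ℝ) ^ 3 * ∑ j, x j ^ 4 := by
  have h1 := sum_sq_le x
  have h2 := sq_sum_le_card_mul_sum_sq (s := (Finset.univ : Finset (Fin N)))
    (f := fun j => x j ^ 2)
  simp only [Finset.card_univ, Fintype.card_fin] at h2
  have h3 : ∀ j, (x j ^ 2) ^ 2 = x j ^ 4 := fun j => by ring
  simp only [h3] at h2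
  have h4 : 0 ≤ (∑ j, |x j|) ^ 2 := by positivity
  calc (∑ j, |x j|) ^ 4 = ((∑ j, |x j|) ^ 2) ^ 2 := by ring
    _ ≤ (N * ∑ j, x j ^ 2) ^ 2 := by gcongr
    _ = (N : ℝ) ^ 2 * (∑ j, x j ^ 2) ^ 2 := by ring
    _ ≤ (N : ℝ) ^ 2 * (N * ∑ j, x j ^ 4) := by gcongr
    _ = _ := by ring

lemma inc_norm (π : BPolicy N μ Ω P) {s t : ℝ≥0} (h : s ≤ t) (ω : Ω) :
    ‖Zp π t ω - Zp π s ω‖ ≤ ∑ j, |dM π s t ω j| + (|μ| + 1) * ((t : ℝ) - s) := by
  rw [inc_eq]
  exact (norm_add_le _ _).trans (add_le_add (dM_le π s t ω) (vv_le π h ω))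

lemma inc_sq (π : BPolicy N μ Ω P) {s t : ℝ≥0} (h : s ≤ t) (ω : Ω) :
    ‖Zp π t ω - Zp π s ω‖ ^ 2 ≤ 2 * (N * ∑ j, dM π s t ω j ^ 2) +
      2 * ((|μ| + 1) * ((t : ℝ) - s)) ^ 2 := by
  have h1 := inc_norm π h ω
  have h2 := sum_sq_le (dM π s t ω)
  have h0 := norm_nonneg (Zp π t ω - Zp π s ω)
  set a := ∑ j, |dM π s t ω j|
  set b := (|μ| + 1) * ((t : ℝ) - s)
  calc ‖Zp π t ω - Zp π s ω‖ ^ 2 ≤ (a + b) ^ 2 := by gcongr
    _ ≤ 2 * a ^ 2 + 2 * b ^ 2 := by nlinarith [sq_nonneg (a - b)]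
    _ ≤ _ := by linarith

lemma inc_four (π : BPolicy N μ Ω P) {s t : ℝ≥0} (h : s ≤ t) (ω : Ω) :
    ‖Zp π t ω - Zp π s ω‖ ^ 4 ≤ 8 * ((N : ℝ) ^ 3 * ∑ j, dM π s t ω j ^ 4) +
      8 * ((|μ| + 1) * ((t : ℝ) - s)) ^ 4 := by
  have h1 := inc_norm π h ω
  have h2 := sum_four_le (dM π s t ω)
  have h0 := norm_nonneg (Zp π t ω - Zp π s ω)
  set a := ∑ j, |dM π s t ω j|
  set b := (|μ| + 1) * ((t : ℝ) - s)
  have h3 : (a + b) ^ 2 ≤ 2 * a ^ 2 + 2 * b ^ 2 := by nlinarith [sq_nonneg (a - b)]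
  calc ‖Zp π t ω - Zp π s ω‖ ^ 4 ≤ (a + b) ^ 4 := by gcongr
    _ = ((a + b) ^ 2) ^ 2 := by ring
    _ ≤ (2 * a ^ 2 + 2 * b ^ 2) ^ 2 := by gcongr
    _ ≤ 8 * a ^ 4 + 8 * b ^ 4 := by nlinarith [sq_nonneg (a ^ 2 - b ^ 2)]
    _ ≤ _ := by linarith

/-- the local generator -/
noncomputable def Ph (f : EE N → ℝ) (c : ℝ) (j : Fin N) (z : EE N) : ℝ :=
  (1 / 2) * fderiv ℝ (fderiv ℝ f) z (Pi.single j 1, 0) (Pi.single j 1, 0) +
    c * fderiv ℝ f z (Pi.single j 1, 0) + fderiv ℝ f z (0, Pi.single j 1)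

lemma gen_eq (hP : S_PAR) (f : EE N → ℝ) (hf : ContDiff ℝ 2 f) (x τ : Fin N → ℝ) (j : Fin N)
    (hit : Prop) [Decidable hit] :
    gen μ f x τ j hit = Ph f (if hit then μ else 0) j (x, τ) := by
  obtain ⟨h, -, -, -⟩ := hP N f hf j
  obtain ⟨h1, h2, h3⟩ := h x τ
  unfold gen Ph
  rw [h1, h2, h3]

lemma Ph_cont (hP : S_PAR) (f : EE N → ℝ) (hf : ContDiff ℝ 2 f) (c : ℝ) (j : Fin N) :
    Continuous (Ph f c j) := by
  obtain ⟨-, h1, h2, h3⟩ := hP N f hf j
  unfold Ph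
  exact ((continuous_const.mul h2).add (continuous_const.mul h1)).add h3

lemma Ph_bdd (hP : S_PAR) (f : EE N → ℝ) (hf : IsTest f) : ∃ C : ℝ, 0 ≤ C ∧ (∀ z, |f z| ≤ C) ∧
    ∀ (c : ℝ) (j : Fin N) (z : EE N), |Ph f c j z| ≤ (2 + |c|) * C := by
  obtain ⟨C, hC⟩ := hf.bdd
  have hC0 : 0 ≤ C := (abs_nonneg _).trans (hC 0 0).1
  refine ⟨C, hC0, fun z => (hC z.1 z.2).1, ?_⟩
  intro c j z
  obtain ⟨h, -, -, -⟩ := hP N f hf.smooth j
  obtain ⟨h1, h2, h3⟩ := h z.1 z.2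
  obtain ⟨g1, g2, g3⟩ := (hC z.1 z.2).2 j
  rw [h1] at g1
  rw [h2] at g2
  rw [h3] at g3
  unfold Ph
  have e1 := abs_add_le ((1 / 2) * fderiv ℝ (fderiv ℝ f) z (Pi.single j 1, 0) (Pi.single j 1, 0) +
    c * fderiv ℝ f z (Pi.single j 1, 0)) (fderiv ℝ f z (0, Pi.single j 1))
  have e2 := abs_add_le ((1 / 2) * fderiv ℝ (fderiv ℝ f) z (Pi.single j 1, 0) (Pi.single j 1, 0))
    (c * fderiv ℝ f z (Pi.single j 1, 0))
  rw [abs_mul, abs_mul, abs_of_pos (by norm_num : (0 : ℝ) < 1 / 2)] at e2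
  have e3 : |c| * |fderiv ℝ f z (Pi.single j 1, 0)| ≤ |c| * C := by
    gcongr
  have g2' : |fderiv ℝ (fderiv ℝ f) z (Pi.single j 1, 0) (Pi.single j 1, 0)| ≤ C := g2
  have g3' : |fderiv ℝ f z (0, Pi.single j 1)| ≤ C := g3
  linarith

lemma Ph_mod (hP : S_PAR) (f : EE N → ℝ) (hf : IsTest f) (μ R ε : ℝ) (hε : 0 < ε) :
    ∃ K : ℝ, 0 ≤ K ∧ ∀ (j : Fin N) (b : Prop) [Decidable b] (z z' : EE N), ‖z‖ ≤ R →
      |Ph f (if b then μ else 0) j z' - Ph f (if b then μ else 0) j z| ≤ ε + K * ‖z' - z‖ ^ 4 := by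
  obtain ⟨C, hC0, hCf, hC⟩ := Ph_bdd hP f hf
  have h1 := fun j : Fin N => modulus (Ph f μ j) (Ph_cont hP f hf.smooth μ j) _ (hC μ j) R ε hε
  have h2 := fun j : Fin N => modulus (Ph f 0 j) (Ph_cont hP f hf.smooth 0 j) _ (hC 0 j) R ε hε
  choose K1 hK1 hK1' using h1
  choose K2 hK2 hK2' using h2
  refine ⟨∑ j, (K1 j + K2 j), Finset.sum_nonneg fun j _ => add_nonneg (hK1 j) (hK2 j), ?_⟩
  intro j b _ z z' hz
  have h3 : K1 j + K2 j ≤ ∑ j, (K1 j + K2 j) :=
    Finset.single_le_sum (f := fun j => K1 j + K2 j)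
      (fun j _ => add_nonneg (hK1 j) (hK2 j)) (Finset.mem_univ j)
  have h4 : 0 ≤ ‖z' - z‖ ^ 4 := by positivity
  split_ifs
  · refine (hK1' j z z' hz).trans ?_
    have : K1 j ≤ ∑ j, (K1 j + K2 j) := by linarith [hK2 j]
    gcongr
  · refine (hK2' j z z' hz).trans ?_
    have : K2 j ≤ ∑ j, (K1 j + K2 j) := by linarith [hK1 j]
    gcongr

lemma clock_cont (π : BPolicy N μ Ω P) (ω : Ω) : Continuous fun t : ℝ≥0 => clock π.J t ω := by
  refine continuous_pi (fun j => ?_)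
  exact (intervalIntegral.continuous_primitive (fun a b => ind_int π ω j a b) 0).comp
    NNReal.continuous_coe

lemma M_cont' (π : BPolicy N μ Ω P) (ω : Ω) (j : Fin N) :
    Continuous fun r : ℝ => π.M r.toNNReal ω j :=
  (continuous_apply j).comp ((π.M_cont ω).comp continuous_real_toNNReal)

lemma Z_cont (π : BPolicy N μ Ω P) (ω : Ω) : Continuous fun r : ℝ => Zp π r.toNNReal ω := by
  unfold Zp
  refine Continuous.prodMk ?_ ((clock_cont π ω).comp continuous_real_toNNReal)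
  refine continuous_pi (fun j => ?_)
  have h : (fun r : ℝ => π.X r.toNNReal ω j) = fun r : ℝ => π.M r.toNNReal ω j +
      μ * (if π.jstar ω = j then clock π.J r.toNNReal ω j else 0) := by
    funext r
    rw [π.X_eq]
  rw [h]
  refine (M_cont' π ω j).add (continuous_const.mul ?_)
  split_ifs
  · exact (continuous_apply j).comp ((clock_cont π ω).comp continuous_real_toNNReal)
  · exact continuous_const

/-- the pathwise estimate of the drift term -/
lemma path_est (hP : S_PAR) (f : EE N → ℝ) (hf : ContDiff ℝ 2 f) (π : BPolicy N μ Ω P)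
    {s t : ℝ≥0} (h : s ≤ t) (ω : Ω) (R ε K : ℝ) (hK : 0 ≤ K)
    (hmod : ∀ (j : Fin N) (b : Prop) [Decidable b] (z z' : EE N), ‖z‖ ≤ R →
      |Ph f (if b then μ else 0) j z' - Ph f (if b then μ else 0) j z| ≤ ε + K * ‖z' - z‖ ^ 4)
    (hR : ‖Zp π s ω‖ ≤ R) :
    |∑ j, dc π s t ω j * Ph f (if π.jstar ω = j then μ else 0) j (Zp π s ω) -
      ∫ r in (s : ℝ)..t, gen μ f (π.X r.toNNReal ω) (clock π.J r.toNNReal ω)
          (π.J r.toNNReal ω) (π.J r.toNNReal ω = π.jstar ω)| ≤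
    (ε + K * (8 * ((|μ| + 1) * ((t : ℝ) - s)) ^ 4)) * ((t : ℝ) - s) +
      K * (8 * (N : ℝ) ^ 3) * ∑ j, ∫ r in (s : ℝ)..t, (π.M r.toNNReal ω j - π.M s ω j) ^ 4 := by
  have hst : (s : ℝ) ≤ t := by exact_mod_cast h
  have hst0 : (0 : ℝ) ≤ (t : ℝ) - s := sub_nonneg.2 hst
  set c : Fin N → ℝ := fun j => if π.jstar ω = j then μ else 0 with hc
  set I : Fin N → ℝ → ℝ := fun j r => if π.J r.toNNReal ω = j then (1 : ℝ) else 0 with hI
  have e1 : ∑ j, dc π s t ω j * Ph f (c j) j (Zp π s ω) =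
      ∫ r in (s : ℝ)..t, ∑ j, I j r * Ph f (c j) j (Zp π s ω) := by
    rw [intervalIntegral.integral_finsetSum]
    · refine Finset.sum_congr rfl fun j _ => ?_
      rw [intervalIntegral.integral_mul_const]
      congr 1
      exact dclock_eq π ω j s t
    · intro j _
      exact (ind_int π ω j _ _).mul_const _
  have e2 : ∫ r in (s : ℝ)..t, gen μ f (π.X r.toNNReal ω) (clock π.J r.toNNReal ω)
          (π.J r.toNNReal ω) (π.J r.toNNReal ω = π.jstar ω) =
      ∫ r in (s : ℝ)..t, ∑ j, I j r * Ph f (c j) j (Zp π r.toNNReal ω) := by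
    refine intervalIntegral.integral_congr ?_
    intro r _
    simp only
    rw [gen_eq hP f hf]
    rw [Finset.sum_eq_single (π.J r.toNNReal ω)]
    · simp only [hI, hc, if_true, one_mul]
      have : (if π.J r.toNNReal ω = π.jstar ω then μ else 0) =
          if π.jstar ω = π.J r.toNNReal ω then μ else 0 := by
        by_cases hh : π.J r.toNNReal ω = π.jstar ω
        · rw [if_pos hh, if_pos hh.symm]
        · rw [if_neg hh, if_neg (fun h' => hh h'.symm)]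
      rw [this]
      rfl
    · intro j _ hj
      simp only [hI]
      rw [if_neg (fun h' => hj h'.symm), zero_mul]
    · intro h'
      exact absurd (Finset.mem_univ _) h'
  have i1 : IntervalIntegrable (fun r => ∑ j, I j r * Ph f (c j) j (Zp π s ω)) volume (s : ℝ) t := by
    have h0 : IntervalIntegrable (∑ j : Fin N, fun r => I j r * Ph f (c j) j (Zp π s ω)) volume
        (s : ℝ) t := IntervalIntegrable.sum _ fun j _ => (ind_int π ω j _ _).mul_const _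
    have e : (fun r => ∑ j, I j r * Ph f (c j) j (Zp π s ω)) =
        ∑ j : Fin N, fun r => I j r * Ph f (c j) j (Zp π s ω) := by
      funext r; simp
    rw [e]; exact h0
  have i2 : IntervalIntegrable (fun r => ∑ j, I j r * Ph f (c j) j (Zp π r.toNNReal ω))
      volume (s : ℝ) t := by
    have h0 : IntervalIntegrable (∑ j : Fin N, fun r => I j r * Ph f (c j) j (Zp π r.toNNReal ω))
        volume (s : ℝ) t := IntervalIntegrable.sum _ fun j _ =>
        (ind_int π ω j _ _).mul_continuousOn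
      (((Ph_cont hP f hf (c j) j).comp (Z_cont π ω)).continuousOn)
    have e : (fun r => ∑ j, I j r * Ph f (c j) j (Zp π r.toNNReal ω)) =
        ∑ j : Fin N, fun r => I j r * Ph f (c j) j (Zp π r.toNNReal ω) := by
      funext r; simp
    rw [e]; exact h0
  rw [e1, e2, ← intervalIntegral.integral_sub i1 i2]
  set g : ℝ → ℝ := fun r => (ε + K * (8 * ((|μ| + 1) * ((t : ℝ) - s)) ^ 4)) +
    K * (8 * (N : ℝ) ^ 3) * ∑ j, (π.M r.toNNReal ω j - π.M s ω j) ^ 4 with hg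
  have hgc : Continuous g := by
    refine continuous_const.add (continuous_const.mul ?_)
    refine continuous_finsetSum _ fun j _ => ?_
    exact ((M_cont' π ω j).sub continuous_const).pow 4
  have hbound : ∀ r ∈ Set.Ioc (s : ℝ) t, ‖(∑ j, I j r * Ph f (c j) j (Zp π s ω)) -
      ∑ j, I j r * Ph f (c j) j (Zp π r.toNNReal ω)‖ ≤ g r := by
    intro r hr
    have hr0 : 0 ≤ r := (NNReal.coe_nonneg s).trans hr.1.le
    have hsr : s ≤ r.toNNReal := NNReal.le_toNNReal_of_coe_le hr.1.le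
    rw [← Finset.sum_sub_distrib, Finset.sum_eq_single (π.J r.toNNReal ω)]
    · simp only [hI, if_true, one_mul]
      rw [Real.norm_eq_abs, abs_sub_comm]
      have h1 := hmod (π.J r.toNNReal ω) (π.jstar ω = π.J r.toNNReal ω) (Zp π s ω)
        (Zp π r.toNNReal ω) hR
      refine h1.trans ?_
      have h2 := inc_four π hsr ω
      rw [Real.coe_toNNReal r hr0] at h2
      have h3 : 0 ≤ r - (s : ℝ) := by linarith [hr.1]
      have h4 : r - (s : ℝ) ≤ (t : ℝ) - s := by linarith [hr.2]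
      have h5 : 8 * ((|μ| + 1) * (r - (s : ℝ))) ^ 4 ≤ 8 * ((|μ| + 1) * ((t : ℝ) - s)) ^ 4 := by
        gcongr
      have h6 : ‖Zp π r.toNNReal ω - Zp π s ω‖ ^ 4 ≤
          8 * ((N : ℝ) ^ 3 * ∑ j, dM π s r.toNNReal ω j ^ 4) +
          8 * ((|μ| + 1) * ((t : ℝ) - s)) ^ 4 := by linarith
      have h7 := mul_le_mul_of_nonneg_left h6 hK
      simp only [hg]
      unfold dM at h7
      linarith
    · intro j _ hj
      simp only [hI]
      rw [if_neg (fun h' => hj h'.symm)]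
      ring
    · intro h'
      exact absurd (Finset.mem_univ _) h'
  have key := intervalIntegral.norm_integral_le_of_norm_le hst
    (Filter.Eventually.of_forall hbound) (hgc.intervalIntegrable (μ := volume) (s : ℝ) t)
  rw [Real.norm_eq_abs] at key
  refine key.trans (le_of_eq ?_)
  simp only [hg]
  have c4 : ∀ j : Fin N, Continuous fun r : ℝ => (π.M r.toNNReal ω j - π.M s ω j) ^ 4 := fun j =>
    ((M_cont' π ω j).sub continuous_const).pow 4
  have c5 : Continuous fun r : ℝ => K * (8 * (N : ℝ) ^ 3) *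
      ∑ j, (π.M r.toNNReal ω j - π.M s ω j) ^ 4 :=
    continuous_const.mul (continuous_finsetSum _ fun j _ => c4 j)
  rw [intervalIntegral.integral_add intervalIntegrable_const (c5.intervalIntegrable _ _),
    intervalIntegral.integral_const_mul, intervalIntegral.integral_finsetSum
      (fun j _ => (c4 j).intervalIntegrable _ _)]
  simp only [intervalIntegral.integral_const, smul_eq_mul]
  ring

end H70.FL
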