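import Pool.Agent.H70.FL.Aux3

set_option autoImplicit false

open MeasureTheory ProbabilityTheory Filter Topology
open scoped NNReal ENNReal

universe u

namespace H70.FL

open H5.FL

section lin

variable {N : ℕ}

lemma lin_fst (L : EE N →L[ℝ] ℝ) (x : Fin N → ℝ) :
    L (x, 0) = ∑ j, x j * L (Pi.single j 1, 0) := by
  have hx : ((x, 0) : EE N) = ∑ j, x j • ((Pi.single j 1, 0) : EE N) := by
    refine Prod.ext ?_ ?_
    · rw [Prod.fst_sum]
      funext k
      simp [Finset.sum_apply, Pi.single_apply]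
    · rw [Prod.snd_sum]
      simp
  conv_lhs => rw [hx]
  rw [map_sum]
  refine Finset.sum_congr rfl fun j _ => ?_
  rw [map_smul, smul_eq_mul]

lemma lin_snd (L : EE N →L[ℝ] ℝ) (x : Fin N → ℝ) :
    L (0, x) = ∑ j, x j * L (0, Pi.single j 1) := by
  have hx : ((0, x) : EE N) = ∑ j, x j • ((0, Pi.single j 1) : EE N) := by
    refine Prod.ext ?_ ?_
    · rw [Prod.fst_sum]
      simp
    · rw [Prod.snd_sum]
      funext k
      simp [Finset.sum_apply, Pi.single_apply]
  conv_lhs => rw [hx]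
  rw [map_sum]
  refine Finset.sum_congr rfl fun j _ => ?_
  rw [map_smul, smul_eq_mul]

lemma bil_fst (B : EE N →L[ℝ] EE N →L[ℝ] ℝ) (x : Fin N → ℝ) :
    B (x, 0) (x, 0) = ∑ i, ∑ j, x i * x j * B (Pi.single i 1, 0) (Pi.single j 1, 0) := by
  have hx : ((x, 0) : EE N) = ∑ j, x j • ((Pi.single j 1, 0) : EE N) := by
    refine Prod.ext ?_ ?_
    · rw [Prod.fst_sum]
      funext k
      simp [Finset.sum_apply, Pi.single_apply]
    · rw [Prod.snd_sum]
      simp
  have h1 : B (x, 0) = ∑ i, x i • B (Pi.single i 1, 0) := by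
    conv_lhs => rw [hx]
    rw [map_sum]
    refine Finset.sum_congr rfl fun j _ => ?_
    rw [map_smul]
  rw [h1, _root_.sum_apply]
  refine Finset.sum_congr rfl fun i _ => ?_
  rw [_root_.smul_apply, lin_fst, smul_eq_mul, Finset.mul_sum]
  refine Finset.sum_congr rfl fun j _ => ?_
  ring

lemma single_norm (j : Fin N) : ‖((Pi.single j 1, 0) : EE N)‖ ≤ 1 := by
  rw [Prod.norm_def]
  refine max_le ?_ (by simp)
  rw [pi_norm_le_iff_of_nonneg zero_le_one]
  intro k
  simp only [Pi.single_apply]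
  split_ifs <;> simp

end lin

variable {N : ℕ} {μ : ℝ} {Ω : Type u} [mΩ : MeasurableSpace Ω] {P : Measure Ω}

noncomputable def T34 (π : BPolicy N μ Ω P) (f : EE N → ℝ) (s t : ℝ≥0) (ω : Ω) : ℝ :=
  (∑ j, fderiv ℝ f (Zp π s ω) (Pi.single j 1, 0) * dM π s t ω j) +
  (1 / 2) * ((∑ i, ∑ j, fderiv ℝ (fderiv ℝ f) (Zp π s ω) (Pi.single i 1, 0) (Pi.single j 1, 0) *
      (dM π s t ω i * dM π s t ω j)) -
    ∑ i, ∑ j, fderiv ℝ (fderiv ℝ f) (Zp π s ω) (Pi.single i 1, 0) (Pi.single j 1, 0) *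
      (if i = j then dc π s t ω j else 0))

/-- the pointwise decomposition -/
lemma decomp (π : BPolicy N μ Ω P) (f : EE N → ℝ) (s t : ℝ≥0) (ω : Ω) (G : ℝ) :
    f (Zp π t ω) - f (Zp π s ω) - G - T34 π f s t ω =
      (f (Zp π s ω + (Zp π t ω - Zp π s ω)) - f (Zp π s ω) -
        fderiv ℝ f (Zp π s ω) (Zp π t ω - Zp π s ω) -
        (1 / 2) * fderiv ℝ (fderiv ℝ f) (Zp π s ω) (Zp π t ω - Zp π s ω)
          (Zp π t ω - Zp π s ω)) +
      (1 / 2) * (fderiv ℝ (fderiv ℝ f) (Zp π s ω) (dM π s t ω, 0) (vv π s t ω) +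
        fderiv ℝ (fderiv ℝ f) (Zp π s ω) (vv π s t ω) (dM π s t ω, 0) +
        fderiv ℝ (fderiv ℝ f) (Zp π s ω) (vv π s t ω) (vv π s t ω)) +
      (∑ j, dc π s t ω j * Ph f (if π.jstar ω = j then μ else 0) j (Zp π s ω) - G) := by
  rw [add_sub_cancel, inc_eq]
  set z := Zp π s ω
  set D1 := fderiv ℝ f z
  set D2 := fderiv ℝ (fderiv ℝ f) z
  have h1 : D1 ((dM π s t ω, 0) + vv π s t ω) = D1 (dM π s t ω, 0) + D1 (vv π s t ω) := map_add _ _ _
  have h2 : D2 ((dM π s t ω, 0) + vv π s t ω) ((dM π s t ω, 0) + vv π s t ω) =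
      D2 (dM π s t ω, 0) (dM π s t ω, 0) + D2 (dM π s t ω, 0) (vv π s t ω) +
        D2 (vv π s t ω) (dM π s t ω, 0) + D2 (vv π s t ω) (vv π s t ω) := by
    have e := map_add D2 ((dM π s t ω, 0) : EE N) (vv π s t ω)
    rw [e, _root_.add_apply, map_add, map_add]
    ring
  have h3 : vv π s t ω = ((fun j => (if π.jstar ω = j then μ else 0) * dc π s t ω j), 0) +
      (0, dc π s t ω) := by
    unfold vv
    simp
  have h4 : D1 (vv π s t ω) = (∑ j, ((if π.jstar ω = j then μ else 0) * dc π s t ω j) *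
      D1 (Pi.single j 1, 0)) + ∑ j, dc π s t ω j * D1 (0, Pi.single j 1) := by
    rw [h3, map_add, lin_fst, lin_snd]
  have h5 : ∑ j, dc π s t ω j * Ph f (if π.jstar ω = j then μ else 0) j z =
      (1 / 2) * (∑ j, dc π s t ω j * D2 (Pi.single j 1, 0) (Pi.single j 1, 0)) + D1 (vv π s t ω) := by
    rw [h4, Finset.mul_sum, ← Finset.sum_add_distrib, ← Finset.sum_add_distrib]
    refine Finset.sum_congr rfl fun j _ => ?_
    unfold Ph
    ring
  have h6 : T34 π f s t ω = D1 (dM π s t ω, 0) + (1 / 2) * (D2 (dM π s t ω, 0) (dM π s t ω, 0) -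
      ∑ j, dc π s t ω j * D2 (Pi.single j 1, 0) (Pi.single j 1, 0)) := by
    unfold T34
    rw [lin_fst, bil_fst]
    congr 1
    · refine Finset.sum_congr rfl fun j _ => ?_
      ring
    · congr 2
      · refine Finset.sum_congr rfl fun i _ => Finset.sum_congr rfl fun j _ => ?_
        ring
      · refine Finset.sum_congr rfl fun i _ => ?_
        rw [Finset.sum_eq_single i]
        · rw [if_pos rfl]; ring
        · intro j _ hj
          rw [if_neg (fun h => hj h.symm), mul_zero]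
        · intro h; exact absurd (Finset.mem_univ _) h
  rw [h6, h1, h2, h5]
  ring

lemma bound_D2 (B : EE N →L[ℝ] EE N →L[ℝ] ℝ) (K : ℝ) (hB : ‖B‖ ≤ K) (a v : EE N) :
    |(1 / 2) * (B a v + B v a + B v v)| ≤ K * (‖a‖ * ‖v‖ + ‖v‖ ^ 2) := by
  have hK : 0 ≤ K := (norm_nonneg B).trans hB
  have key : ∀ x y : EE N, |B x y| ≤ K * (‖x‖ * ‖y‖) := by
    intro x y
    have := B.le_opNorm₂ x y
    rw [Real.norm_eq_abs] at this
    refine this.trans ?_
    rw [mul_assoc]
    gcongr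
  have h1 := key a v
  have h2 := key v a
  have h3 := key v v
  rw [abs_mul, abs_of_pos (by norm_num : (0 : ℝ) < 1 / 2)]
  have h4 := abs_add_le (B a v + B v a) (B v v)
  have h5 := abs_add_le (B a v) (B v a)
  have h6 : 0 ≤ ‖v‖ ^ 2 := by positivity
  nlinarith [mul_nonneg hK h6, mul_comm ‖a‖ ‖v‖]

section expect

variable [IsProbabilityMeasure P]

lemma dM_meas (π : BPolicy N μ Ω P) (s t : ℝ≥0) (j : Fin N) : Measurable fun ω => dM π s t ω j :=
  ((measurable_pi_apply j).comp (M_meas π t)).sub ((measurable_pi_apply j).comp (M_meas π s))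

lemma dc_meas (π : BPolicy N μ Ω P) (s t : ℝ≥0) (j : Fin N) : Measurable fun ω => dc π s t ω j :=
  ((measurable_pi_apply j).comp ((clock_meas π t).mono (π.full.le t) le_rfl)).sub
    ((measurable_pi_apply j).comp ((clock_meas π s).mono (π.full.le s) le_rfl))

omit [IsProbabilityMeasure P] in
lemma dc_abs (π : BPolicy N μ Ω P) {s t : ℝ≥0} (h : s ≤ t) (j : Fin N) (ω : Ω) :
    |dc π s t ω j| ≤ (t : ℝ) - s := by
  unfold dc
  rw [abs_of_nonneg (dclock_nonneg π ω j h)]
  exact dclock_le π ω j h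

lemma dM4 (hI : S_IT2.{u}) (π : BPolicy N μ Ω P) {s t : ℝ≥0} (h : s ≤ t) (j : Fin N) :
    Integrable (fun ω => dM π s t ω j ^ 4) P ∧ ∫ ω, dM π s t ω j ^ 4 ∂P ≤ 3 * ((t : ℝ) - s) ^ 2 := by
  have := hI N Ω P π.full π.W π.W_fbm π.J π.M (prog_full π) π.M_adapted π.M_ito s t h j j
  exact ⟨this.1, this.2.1⟩

lemma dM2 (hI : S_IT2.{u}) (π : BPolicy N μ Ω P) {s t : ℝ≥0} (h : s ≤ t) (j : Fin N) :
    Integrable (fun ω => dM π s t ω j ^ 2) P ∧ ∫ ω, dM π s t ω j ^ 2 ∂P ≤ (t : ℝ) - s := by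
  have h1 := dM4 hI π h j
  refine ⟨?_, ?_⟩
  · refine Integrable.mono' ((integrable_const (1 : ℝ)).add h1.1)
      ((dM_meas π s t j).pow_const 2).aestronglyMeasurable (Filter.Eventually.of_forall fun ω => ?_)
    simp only [Pi.add_apply]
    rw [Real.norm_eq_abs, abs_of_nonneg (by positivity)]
    nlinarith [sq_nonneg (dM π s t ω j ^ 2 - 1), sq_nonneg (dM π s t ω j ^ 2)]
  · have h2 := (hI N Ω P π.full π.W π.W_fbm π.J π.M (prog_full π) π.M_adapted π.M_ito s t h j
      j).2.2 Set.univ MeasurableSet.univ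
    have h3 := h2.2
    simp only [setIntegral_univ, if_true] at h3
    have h4 : ∫ ω, dM π s t ω j ^ 2 ∂P = ∫ ω, dc π s t ω j ∂P := by
      have e : ∀ ω, dM π s t ω j ^ 2 = (π.M t ω j - π.M s ω j) * (π.M t ω j - π.M s ω j) := by
        intro ω; unfold dM; ring
      simp only [e]
      exact h3
    rw [h4]
    have h5 : ∫ ω, dc π s t ω j ∂P ≤ ∫ _ω : Ω, ((t : ℝ) - s) ∂P := by
      refine integral_mono_of_nonneg (Filter.Eventually.of_forall fun ω => ?_)
        (integrable_const _) (Filter.Eventually.of_forall fun ω => ?_)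
      · exact dclock_nonneg π ω j h
      · exact dclock_le π ω j h
    simpa using h5

lemma dMdM (hI : S_IT2.{u}) (π : BPolicy N μ Ω P) {s t : ℝ≥0} (h : s ≤ t) (i j : Fin N) :
    Integrable (fun ω => dM π s t ω i * dM π s t ω j) P := by
  refine Integrable.mono' ((dM2 hI π h i).1.add (dM2 hI π h j).1)
    ((dM_meas π s t i).mul (dM_meas π s t j)).aestronglyMeasurable
    (Filter.Eventually.of_forall fun ω => ?_)
  simp only [Pi.add_apply]
  rw [Real.norm_eq_abs, abs_mul]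
  nlinarith [sq_nonneg (|dM π s t ω i| - |dM π s t ω j|), sq_abs (dM π s t ω i),
    sq_abs (dM π s t ω j), sq_nonneg (|dM π s t ω i|), sq_nonneg (|dM π s t ω j|)]

lemma dM1 (hI : S_IT2.{u}) (π : BPolicy N μ Ω P) {s t : ℝ≥0} (h : s ≤ t) (j : Fin N) :
    Integrable (fun ω => dM π s t ω j) P := by
  refine Integrable.mono' ((integrable_const (1 : ℝ)).add (dM2 hI π h j).1)
    (dM_meas π s t j).aestronglyMeasurable (Filter.Eventually.of_forall fun ω => ?_)
  simp only [Pi.add_apply]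
  rw [Real.norm_eq_abs]
  nlinarith [sq_nonneg (|dM π s t ω j| - 1), sq_abs (dM π s t ω j)]

lemma Z_meas (π : BPolicy N μ Ω P) (s : ℝ≥0) : Measurable[π.full s] (Zp π s) :=
  (X_meas π s).prodMk (clock_meas π s)

lemma bdd_int (g X : Ω → ℝ) (K : ℝ) (hg : Measurable g) (hgK : ∀ ω, |g ω| ≤ K) (hX : Measurable X)
    (hXi : Integrable X P) : Integrable (fun ω => g ω * X ω) P := by
  refine Integrable.mono' (hXi.abs.const_mul K) (hg.mul hX).aestronglyMeasurable
    (Filter.Eventually.of_forall fun ω => ?_)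
  rw [Real.norm_eq_abs, abs_mul]
  exact mul_le_mul_of_nonneg_right (hgK ω) (abs_nonneg _)

lemma int_comb (F1 F2 F3 : Ω → ℝ) (h1 : Integrable F1 P) (h2 : Integrable F2 P)
    (h3 : Integrable F3 P) : ∫ ω, (F1 ω + (1 / 2) * (F2 ω - F3 ω)) ∂P =
      ∫ ω, F1 ω ∂P + (1 / 2) * (∫ ω, F2 ω ∂P - ∫ ω, F3 ω ∂P) := by
  have h4 : Integrable (fun ω => (1 / 2) * (F2 ω - F3 ω)) P := (h2.sub h3).const_mul _
  rw [integral_add h1 h4, integral_const_mul, integral_sub h2 h3]

lemma T34_zero (hI : S_IT2.{u}) (hW : S_WGT.{u}) (hP : S_PAR) (f : EE N → ℝ) (hf : ContDiff ℝ 2 f)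
    (π : BPolicy N μ Ω P) {s t : ℝ≥0} (h : s ≤ t) (A : Set Ω) (hA : MeasurableSet[π.full s] A)
    (R K : ℝ) (hR : ∀ ω ∈ A, ‖Zp π s ω‖ ≤ R)
    (hK0 : 0 ≤ K) (hK : ∀ z : EE N, ‖z‖ ≤ R → ‖fderiv ℝ f z‖ ≤ K ∧ ‖fderiv ℝ (fderiv ℝ f) z‖ ≤ K) :
    Integrable (A.indicator (T34 π f s t)) P ∧ ∫ ω, A.indicator (T34 π f s t) ω ∂P = 0 := by
  classical
  have hst : (0 : ℝ) ≤ (t : ℝ) - s := sub_nonneg.2 (by exact_mod_cast h)
  set g1 : Fin N → Ω → ℝ := fun j => A.indicator fun ω => fderiv ℝ f (Zp π s ω) (Pi.single j 1, 0)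
    with hg1
  set g2 : Fin N → Fin N → Ω → ℝ := fun i j => A.indicator fun ω =>
    fderiv ℝ (fderiv ℝ f) (Zp π s ω) (Pi.single i 1, 0) (Pi.single j 1, 0) with hg2
  have c1' : ContDiff ℝ 1 (fderiv ℝ f) := hf.fderiv_right (by norm_num)
  have c2 := c1'.continuous_fderiv (by norm_num)
  have cont2 : ∀ i j : Fin N, Continuous fun z : EE N =>
      fderiv ℝ (fderiv ℝ f) z (Pi.single i 1, 0) (Pi.single j 1, 0) := fun i j =>
    (c2.clm_apply continuous_const).clm_apply continuous_const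
  have m1 : ∀ j, Measurable[π.full s] (g1 j) := fun j =>
    (((hP N f hf j).2.1).measurable.comp (Z_meas π s)).indicator hA
  have m2 : ∀ i j, Measurable[π.full s] (g2 i j) := fun i j =>
    ((cont2 i j).measurable.comp (Z_meas π s)).indicator hA
  have b1 : ∀ j ω, |g1 j ω| ≤ K := by
    intro j ω
    by_cases hω : ω ∈ A
    · simp only [hg1, Set.indicator_of_mem hω]
      have := (fderiv ℝ f (Zp π s ω)).le_opNorm (Pi.single j 1, 0)
      rw [Real.norm_eq_abs] at this
      calc _ ≤ _ := this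
        _ ≤ K * 1 := by
            gcongr
            · exact (hK _ (hR ω hω)).1
            · exact single_norm j
        _ = K := mul_one K
    · simp only [hg1, Set.indicator_of_notMem hω, abs_zero]
      exact hK0
  have b2 : ∀ i j ω, |g2 i j ω| ≤ K := by
    intro i j ω
    by_cases hω : ω ∈ A
    · simp only [hg2, Set.indicator_of_mem hω]
      have := (fderiv ℝ (fderiv ℝ f) (Zp π s ω)).le_opNorm₂ (Pi.single i 1, 0) (Pi.single j 1, 0)
      rw [Real.norm_eq_abs] at this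
      calc _ ≤ _ := this
        _ ≤ K * 1 * 1 := by
            gcongr
            · exact (hK _ (hR ω hω)).2
            · exact single_norm i
            · exact single_norm j
        _ = K := by ring
    · simp only [hg2, Set.indicator_of_notMem hω, abs_zero]
      exact hK0
  have w1 : ∀ j, ∫ ω, g1 j ω * dM π s t ω j ∂P = 0 := fun j =>
    (hW N Ω P π.full π.W π.W_fbm π.J π.M (prog_full π) π.M_adapted π.M_ito s t h j j (g1 j) K
      (m1 j) (b1 j)).1
  have w2 : ∀ i j, ∫ ω, g2 i j ω * (dM π s t ω i * dM π s t ω j) ∂P =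
      ∫ ω, g2 i j ω * (if i = j then dc π s t ω j else 0) ∂P := fun i j =>
    (hW N Ω P π.full π.W π.W_fbm π.J π.M (prog_full π) π.M_adapted π.M_ito s t h i j (g2 i j) K
      (m2 i j) (b2 i j)).2
  have i1 : ∀ j, Integrable (fun ω => g1 j ω * dM π s t ω j) P := fun j =>
    bdd_int _ _ K ((m1 j).mono (π.full.le s) le_rfl) (b1 j) (dM_meas π s t j) (dM1 hI π h j)
  have i2 : ∀ i j, Integrable (fun ω => g2 i j ω * (dM π s t ω i * dM π s t ω j)) P := fun i j =>
    bdd_int _ _ K ((m2 i j).mono (π.full.le s) le_rfl) (b2 i j)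
      ((dM_meas π s t i).mul (dM_meas π s t j)) (dMdM hI π h i j)
  have i3 : ∀ i j, Integrable (fun ω => g2 i j ω * (if i = j then dc π s t ω j else 0)) P := by
    intro i j
    refine bdd_int _ _ K ((m2 i j).mono (π.full.le s) le_rfl) (b2 i j) ?_ ?_
    · split_ifs
      · exact dc_meas π s t j
      · exact measurable_const
    · split_ifs
      · refine Integrable.mono' (integrable_const ((t : ℝ) - s)) (dc_meas π s t j).aestronglyMeasurable
          (Filter.Eventually.of_forall fun ω => ?_)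
        rw [Real.norm_eq_abs]
        exact dc_abs π h j ω
      · exact integrable_const _
  have heq : A.indicator (T34 π f s t) = fun ω => (∑ j, g1 j ω * dM π s t ω j) +
      (1 / 2) * ((∑ i, ∑ j, g2 i j ω * (dM π s t ω i * dM π s t ω j)) -
        ∑ i, ∑ j, g2 i j ω * (if i = j then dc π s t ω j else 0)) := by
    funext ω
    by_cases hω : ω ∈ A
    · simp only [hg1, hg2, Set.indicator_of_mem hω]
      rfl
    · simp only [hg1, hg2, Set.indicator_of_notMem hω]
      simp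
  have s1 : Integrable (fun ω => ∑ j, g1 j ω * dM π s t ω j) P :=
    integrable_finsetSum _ fun j _ => i1 j
  have s2 : Integrable (fun ω => ∑ i, ∑ j, g2 i j ω * (dM π s t ω i * dM π s t ω j)) P :=
    integrable_finsetSum _ fun i _ => integrable_finsetSum _ fun j _ => i2 i j
  have s3 : Integrable (fun ω => ∑ i, ∑ j, g2 i j ω * (if i = j then dc π s t ω j else 0)) P :=
    integrable_finsetSum _ fun i _ => integrable_finsetSum _ fun j _ => i3 i j
  rw [heq]
  refine ⟨s1.add ((s2.sub s3).const_mul _), ?_⟩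
  refine (int_comb _ _ _ s1 s2 s3).trans ?_
  rw [integral_finsetSum _ fun j _ => i1 j,
    integral_finsetSum _ fun i _ => integrable_finsetSum _ fun j _ => i2 i j,
    integral_finsetSum _ fun i _ => integrable_finsetSum _ fun j _ => i3 i j]
  have e1 : ∑ j, ∫ ω, g1 j ω * dM π s t ω j ∂P = 0 := Finset.sum_eq_zero fun j _ => w1 j
  have e2 : ∑ i, ∫ ω, ∑ j, g2 i j ω * (dM π s t ω i * dM π s t ω j) ∂P =
      ∑ i, ∫ ω, ∑ j, g2 i j ω * (if i = j then dc π s t ω j else 0) ∂P := by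
    refine Finset.sum_congr rfl fun i _ => ?_
    rw [integral_finsetSum _ fun j _ => i2 i j, integral_finsetSum _ fun j _ => i3 i j]
    exact Finset.sum_congr rfl fun j _ => w2 i j
  rw [e1, e2]
  ring

end expect

end H70.FL
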