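import Pool.Agent.H70.FL.IST

set_option autoImplicit false

open MeasureTheory ProbabilityTheory Filter Topology
open scoped NNReal ENNReal

universe u

namespace H70.FL

open H5.FL

variable {N : ℕ} {μ : ℝ} {Ω : Type u} [mΩ : MeasurableSpace Ω] {P : Measure Ω}

/-- the pointwise bound -/
lemma pointwise (hP : S_PAR) (f : EE N → ℝ) (hf : ContDiff ℝ 2 f) (π : BPolicy N μ Ω P)
    {s t : ℝ≥0} (h : s ≤ t) (ω : Ω) (R ε₁ ε₂ η K1 K2 K3 : ℝ) (hε₁ : 0 < ε₁) (hη : 0 < η)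
    (hK1 : 0 ≤ K1) (hK2 : 0 ≤ K2) (hK3 : 0 ≤ K3)
    (htay : ∀ z d : EE N, ‖z‖ ≤ R →
      |f (z + d) - f z - fderiv ℝ f z d - (1 / 2) * fderiv ℝ (fderiv ℝ f) z d d| ≤
        ε₁ * ‖d‖ ^ 2 + K1 * ‖d‖ ^ 4)
    (hD : ∀ z : EE N, ‖z‖ ≤ R → ‖fderiv ℝ f z‖ ≤ K2 ∧ ‖fderiv ℝ (fderiv ℝ f) z‖ ≤ K2)
    (hmod : ∀ (j : Fin N) (b : Prop) [Decidable b] (z z' : EE N), ‖z‖ ≤ R →
      |Ph f (if b then μ else 0) j z' - Ph f (if b then μ else 0) j z| ≤ ε₂ + K3 * ‖z' - z‖ ^ 4)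
    (hR : ‖Zp π s ω‖ ≤ R) :
    |f (Zp π t ω) - f (Zp π s ω) - (∫ r in (s : ℝ)..t, gen μ f (π.X r.toNNReal ω)
        (clock π.J r.toNNReal ω) (π.J r.toNNReal ω) (π.J r.toNNReal ω = π.jstar ω)) -
        T34 π f s t ω| ≤
      (ε₁ * (2 * ((|μ| + 1) * ((t : ℝ) - s)) ^ 2) + K1 * (8 * ((|μ| + 1) * ((t : ℝ) - s)) ^ 4) +
        K2 * ((|μ| + 1) * (((t : ℝ) - s) ^ 2 / η)) + K2 * ((|μ| + 1) * ((t : ℝ) - s)) ^ 2 +
        (ε₂ + K3 * (8 * ((|μ| + 1) * ((t : ℝ) - s)) ^ 4)) * ((t : ℝ) - s)) +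
      (ε₁ * (2 * N) + K2 * (|μ| + 1) * η * N) * (∑ j, dM π s t ω j ^ 2) +
      (K1 * (8 * (N : ℝ) ^ 3)) * (∑ j, dM π s t ω j ^ 4) +
      (K3 * (8 * (N : ℝ) ^ 3)) *
        ∑ j, ∫ r in (s : ℝ)..t, (π.M r.toNNReal ω j - π.M s ω j) ^ 4 := by
  have hst : (0 : ℝ) ≤ (t : ℝ) - s := sub_nonneg.2 (by exact_mod_cast h)
  rw [decomp]
  set hh : ℝ := (t : ℝ) - s with hhh
  set κ : ℝ := |μ| + 1 with hκ
  have hκ0 : 0 ≤ κ := by positivity
  have b1 := htay (Zp π s ω) (Zp π t ω - Zp π s ω) hR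
  have b2 := bound_D2 (fderiv ℝ (fderiv ℝ f) (Zp π s ω)) K2 (hD _ hR).2 (dM π s t ω, 0)
    (vv π s t ω)
  have b3 := path_est hP f hf π h ω R ε₂ K3 hK3 hmod hR
  rw [← hhh, ← hκ] at b3
  have n1 := inc_sq π h ω
  have n2 := inc_four π h ω
  rw [← hhh, ← hκ] at n1 n2
  have n3 := vv_le π h ω
  rw [← hhh, ← hκ] at n3
  have n4 := dM_le π s t ω
  have n5 := sum_sq_le (dM π s t ω)
  set m : ℝ := ∑ j, |dM π s t ω j| with hm
  have hm0 : 0 ≤ m := Finset.sum_nonneg fun _ _ => abs_nonneg _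
  have a0 : 0 ≤ ‖((dM π s t ω, 0) : EE N)‖ := norm_nonneg _
  have v0 : 0 ≤ ‖vv π s t ω‖ := norm_nonneg _
  have c2 : K2 * (‖((dM π s t ω, 0) : EE N)‖ * ‖vv π s t ω‖ + ‖vv π s t ω‖ ^ 2) ≤
      K2 * (m * (κ * hh) + (κ * hh) ^ 2) := by
    gcongr
  have c3 : m * hh ≤ η * m ^ 2 + hh ^ 2 / η := by
    have : η * m ^ 2 + hh ^ 2 / η - m * hh = ((η * m - hh / 2) ^ 2 + (3 / 4) * hh ^ 2) / η := by
      field_simp
      ring
    have h2 : 0 ≤ ((η * m - hh / 2) ^ 2 + (3 / 4) * hh ^ 2) / η := by positivity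
    linarith
  have c4 : K2 * (m * (κ * hh)) ≤ K2 * κ * η * (N * ∑ j, dM π s t ω j ^ 2) +
      K2 * (κ * (hh ^ 2 / η)) := by
    calc K2 * (m * (κ * hh)) = K2 * κ * (m * hh) := by ring
      _ ≤ K2 * κ * (η * m ^ 2 + hh ^ 2 / η) := by gcongr
      _ = K2 * κ * η * m ^ 2 + K2 * (κ * (hh ^ 2 / η)) := by ring
      _ ≤ _ := by gcongr
  have c5 := mul_le_mul_of_nonneg_left n1 hε₁.le
  have c6 := mul_le_mul_of_nonneg_left n2 hK1
  set A1 := f (Zp π s ω + (Zp π t ω - Zp π s ω)) - f (Zp π s ω) -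
        fderiv ℝ f (Zp π s ω) (Zp π t ω - Zp π s ω) -
        (1 / 2) * fderiv ℝ (fderiv ℝ f) (Zp π s ω) (Zp π t ω - Zp π s ω)
          (Zp π t ω - Zp π s ω)
  set A2 := (1 / 2) * (fderiv ℝ (fderiv ℝ f) (Zp π s ω) (dM π s t ω, 0) (vv π s t ω) +
        fderiv ℝ (fderiv ℝ f) (Zp π s ω) (vv π s t ω) (dM π s t ω, 0) +
        fderiv ℝ (fderiv ℝ f) (Zp π s ω) (vv π s t ω) (vv π s t ω))
  set A3 := ∑ j, dc π s t ω j * Ph f (if π.jstar ω = j then μ else 0) j (Zp π s ω) -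
    ∫ r in (s : ℝ)..t, gen μ f (π.X r.toNNReal ω)
        (clock π.J r.toNNReal ω) (π.J r.toNNReal ω) (π.J r.toNNReal ω = π.jstar ω)
  have t1 := abs_add_le (A1 + A2) A3
  have t2 := abs_add_le A1 A2
  have e1 : ε₁ * (2 * (N * ∑ j, dM π s t ω j ^ 2) + 2 * (κ * hh) ^ 2) =
      ε₁ * (2 * (κ * hh) ^ 2) + ε₁ * (2 * N) * ∑ j, dM π s t ω j ^ 2 := by ring
  have e2 : K1 * (8 * ((N : ℝ) ^ 3 * ∑ j, dM π s t ω j ^ 4) + 8 * (κ * hh) ^ 4) =
      K1 * (8 * (κ * hh) ^ 4) + K1 * (8 * (N : ℝ) ^ 3) * ∑ j, dM π s t ω j ^ 4 := by ring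
  rw [e1] at c5
  rw [e2] at c6
  have e3 : K2 * κ * η * (N * ∑ j, dM π s t ω j ^ 2) =
    K2 * κ * η * N * ∑ j, dM π s t ω j ^ 2 := by ring
  rw [e3] at c4
  have e4 : K2 * (m * (κ * hh) + (κ * hh) ^ 2) = K2 * (m * (κ * hh)) + K2 * (κ * hh) ^ 2 := by ring
  rw [e4] at c2
  have e5 : (ε₁ * (2 * N) + K2 * κ * η * N) * (∑ j, dM π s t ω j ^ 2) =
    ε₁ * (2 * N) * (∑ j, dM π s t ω j ^ 2) + K2 * κ * η * N * ∑ j, dM π s t ω j ^ 2 := by ring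
  rw [e5]
  linarith

theorem t_IST (hI : S_IT2.{u}) (hW : S_WGT.{u}) (hT : S_TAY) (hP : S_PAR) : S_IST.{u} := by
  classical
  intro N μ Ω mΩ P _ π f hf R ε hε
  obtain ⟨C, hC0, hCf, -⟩ := Ph_bdd hP f hf
  obtain ⟨K2, hK2, hD⟩ := deriv_bdd f hf.smooth R
  set κ : ℝ := |μ| + 1 with hκ
  have hκ0 : 0 ≤ κ := by positivity
  set ε₁ : ℝ := ε / (8 * ((N : ℝ) ^ 2 + 1)) with hε₁
  have hε₁0 : 0 < ε₁ := by positivity
  obtain ⟨K1, hK1, htay⟩ := taylor4 hT f hf.smooth C hCf R ε₁ hε₁0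
  set η : ℝ := ε / (4 * (K2 * κ * (N : ℝ) ^ 2 + 1)) with hη
  have hη0 : 0 < η := by positivity
  obtain ⟨K3, hK3, hmod⟩ := Ph_mod hP f hf μ R (ε / 4) (by positivity)
  set KT : ℝ := ε₁ * (2 * κ ^ 2) + K1 * (8 * κ ^ 4) + K2 * (κ / η) + K2 * κ ^ 2 +
    K3 * (8 * κ ^ 4) + 24 * K1 * (N : ℝ) ^ 4 + 24 * K3 * (N : ℝ) ^ 4 with hKT
  have hKT0 : 0 ≤ KT := by positivity
  refine ⟨min 1 (ε / (4 * (KT + 1))), lt_min one_pos (by positivity), ?_⟩
  intro s t h hδ A hA hAR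
  have hst : (0 : ℝ) ≤ (t : ℝ) - s := sub_nonneg.2 (by exact_mod_cast h)
  set hh : ℝ := (t : ℝ) - s with hhh
  have hh1 : hh ≤ 1 := by
    have := min_le_left (1 : ℝ) (ε / (4 * (KT + 1)))
    linarith
  have hh2 : hh ≤ ε / (4 * (KT + 1)) := by
    have := min_le_right (1 : ℝ) (ε / (4 * (KT + 1)))
    linarith
  have hhKT : hh * KT ≤ ε / 4 := by
    have h1 : hh * (4 * (KT + 1)) ≤ ε := by
      rwa [le_div_iff₀ (by positivity)] at hh2
    nlinarith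
  set G : Ω → ℝ := fun ω => ∫ r in (s : ℝ)..t, gen μ f (π.X r.toNNReal ω)
        (clock π.J r.toNNReal ω) (π.J r.toNNReal ω) (π.J r.toNNReal ω = π.jstar ω) with hG
  obtain ⟨hTi, hT0⟩ := T34_zero hI hW hP f hf.smooth π h A hA R K2 hAR hK2 hD
  set c0 : ℝ := ε₁ * (2 * (κ * hh) ^ 2) + K1 * (8 * (κ * hh) ^ 4) +
        K2 * (κ * (hh ^ 2 / η)) + K2 * (κ * hh) ^ 2 +
        (ε / 4 + K3 * (8 * (κ * hh) ^ 4)) * hh with hc0
  set c2 : ℝ := ε₁ * (2 * N) + K2 * κ * η * N with hc2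
  set c4 : ℝ := K1 * (8 * (N : ℝ) ^ 3) with hc4
  set c6 : ℝ := K3 * (8 * (N : ℝ) ^ 3) with hc6
  set S2 : Ω → ℝ := fun ω => ∑ j, dM π s t ω j ^ 2 with hS2
  set S4 : Ω → ℝ := fun ω => ∑ j, dM π s t ω j ^ 4 with hS4
  set S6 : Ω → ℝ := fun ω => ∑ j, ∫ r in (s : ℝ)..t, (π.M r.toNNReal ω j - π.M s ω j) ^ 4 with hS6
  have hst' : (s : ℝ) ≤ t := by exact_mod_cast h
  have pt : ∀ ω ∈ A, |f (Zp π t ω) - f (Zp π s ω) - G ω - T34 π f s t ω| ≤
      c0 + c2 * S2 ω + c4 * S4 ω + c6 * S6 ω := fun ω hω =>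
    pointwise hP f hf.smooth π h ω R ε₁ (ε / 4) η K1 K2 K3 hε₁0 hη0 hK1 hK2 hK3 htay hD hmod
      (hAR ω hω)
  have hS20 : ∀ ω, 0 ≤ S2 ω := fun ω => Finset.sum_nonneg fun j _ => by positivity
  have hS40 : ∀ ω, 0 ≤ S4 ω := fun ω => Finset.sum_nonneg fun j _ => by positivity
  have hS60 : ∀ ω, 0 ≤ S6 ω := fun ω => Finset.sum_nonneg fun j _ =>
    intervalIntegral.integral_nonneg hst' fun r _ => by positivity
  have hc00 : 0 ≤ c0 := by positivity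
  have hc20 : 0 ≤ c2 := by positivity
  have hc40 : 0 ≤ c4 := by positivity
  have hc60 : 0 ≤ c6 := by positivity
  have iS2 : Integrable S2 P := integrable_finsetSum _ fun j _ => (dM2 hI π h j).1
  have iS4 : Integrable S4 P := integrable_finsetSum _ fun j _ => (dM4 hI π h j).1
  have iS6 : Integrable S6 P := integrable_finsetSum _ fun j _ => (fubini4 hI π h j).1
  have vS2 : ∫ ω, S2 ω ∂P ≤ N * hh := by
    simp only [hS2]
    rw [integral_finsetSum _ fun j _ => (dM2 hI π h j).1]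
    calc ∑ j, ∫ ω, dM π s t ω j ^ 2 ∂P ≤ ∑ _j : Fin N, hh :=
          Finset.sum_le_sum fun j _ => (dM2 hI π h j).2
      _ = N * hh := by simp
  have vS4 : ∫ ω, S4 ω ∂P ≤ N * (3 * hh ^ 2) := by
    simp only [hS4]
    rw [integral_finsetSum _ fun j _ => (dM4 hI π h j).1]
    calc ∑ j, ∫ ω, dM π s t ω j ^ 4 ∂P ≤ ∑ _j : Fin N, 3 * hh ^ 2 :=
          Finset.sum_le_sum fun j _ => (dM4 hI π h j).2
      _ = N * (3 * hh ^ 2) := by simp
  have vS6 : ∫ ω, S6 ω ∂P ≤ N * (3 * hh ^ 3) := by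
    simp only [hS6]
    rw [integral_finsetSum _ fun j _ => (fubini4 hI π h j).1]
    calc ∑ j, ∫ ω, (∫ r in (s : ℝ)..t, (π.M r.toNNReal ω j - π.M s ω j) ^ 4) ∂P
        ≤ ∑ _j : Fin N, 3 * hh ^ 3 :=
          Finset.sum_le_sum fun j _ => (fubini4 hI π h j).2
      _ = N * (3 * hh ^ 3) := by simp
  have iB : Integrable (fun ω => c0 + c2 * S2 ω + c4 * S4 ω + c6 * S6 ω) P :=
    (((integrable_const c0).add (iS2.const_mul c2)).add (iS4.const_mul c4)).add (iS6.const_mul c6)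
  have vB : ∫ ω, (c0 + c2 * S2 ω + c4 * S4 ω + c6 * S6 ω) ∂P ≤ ε * hh := by
    have j1 : Integrable (fun ω => c2 * S2 ω) P := iS2.const_mul c2
    have j2 : Integrable (fun ω => c4 * S4 ω) P := iS4.const_mul c4
    have j3 : Integrable (fun ω => c6 * S6 ω) P := iS6.const_mul c6
    have j4 : Integrable (fun ω => c0 + c2 * S2 ω) P := (integrable_const c0).add j1
    have j5 : Integrable (fun ω => c0 + c2 * S2 ω + c4 * S4 ω) P := j4.add j2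
    rw [integral_add j5 j3, integral_add j4 j2, integral_add (integrable_const c0) j1,
      integral_const_mul, integral_const_mul, integral_const_mul]
    simp only [integral_const, probReal_univ, one_smul]
    have k2 := mul_le_mul_of_nonneg_left vS2 hc20
    have k4 := mul_le_mul_of_nonneg_left vS4 hc40
    have k6 := mul_le_mul_of_nonneg_left vS6 hc60
    -- now numbers
    have p2 : hh ^ 2 ≤ hh * hh := by rw [sq]
    have p4 : hh ^ 4 ≤ hh * hh := by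
      calc hh ^ 4 = hh * hh * (hh * hh) := by ring
        _ ≤ hh * hh * (1 * 1) := by gcongr
        _ = hh * hh := by ring
    have p3 : hh ^ 3 ≤ hh * hh := by
      calc hh ^ 3 = hh * hh * hh := by ring
        _ ≤ hh * hh * 1 := by gcongr
        _ = hh * hh := by ring
    have p5 : hh ^ 5 ≤ hh * hh := by
      calc hh ^ 5 = hh * hh * (hh * hh * hh) := by ring
        _ ≤ hh * hh * (1 * 1 * 1) := by gcongr
        _ = hh * hh := by ring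
    have q0 : c0 ≤ hh * (ε / 4) + hh * hh * (ε₁ * (2 * κ ^ 2) + K1 * (8 * κ ^ 4) + K2 * (κ / η) +
        K2 * κ ^ 2 + K3 * (8 * κ ^ 4)) := by
      have r1 : ε₁ * (2 * (κ * hh) ^ 2) = ε₁ * (2 * κ ^ 2) * hh ^ 2 := by ring
      have r2 : K1 * (8 * (κ * hh) ^ 4) ≤ K1 * (8 * κ ^ 4) * (hh * hh) := by
        calc K1 * (8 * (κ * hh) ^ 4) = K1 * (8 * κ ^ 4) * hh ^ 4 := by ring
          _ ≤ _ := by gcongr
      have r3 : K2 * (κ * (hh ^ 2 / η)) = K2 * (κ / η) * (hh * hh) := by ring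
      have r4 : K2 * (κ * hh) ^ 2 = K2 * κ ^ 2 * (hh * hh) := by ring
      have r5 : K3 * (8 * (κ * hh) ^ 4) * hh ≤ K3 * (8 * κ ^ 4) * (hh * hh) := by
        calc K3 * (8 * (κ * hh) ^ 4) * hh = K3 * (8 * κ ^ 4) * hh ^ 5 := by ring
          _ ≤ _ := by gcongr
      rw [hc0, r1, r3, r4]
      nlinarith [r2, r5]
    have q2 : c2 * (N * hh) ≤ hh * (ε / 4) + hh * (ε / 4) := by
      have r1 : ε₁ * (2 * (N : ℝ) ^ 2) ≤ ε / 4 := by
        rw [hε₁, div_mul_eq_mul_div, div_le_div_iff₀ (by positivity) (by norm_num)]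
        nlinarith
      have r2 : K2 * κ * η * (N : ℝ) ^ 2 ≤ ε / 4 := by
        have : K2 * κ * η * (N : ℝ) ^ 2 = ε * (K2 * κ * (N : ℝ) ^ 2) /
            (4 * (K2 * κ * (N : ℝ) ^ 2 + 1)) := by rw [hη]; ring
        rw [this, div_le_div_iff₀ (by positivity) (by norm_num)]
        nlinarith
      calc c2 * (N * hh) = hh * (ε₁ * (2 * (N : ℝ) ^ 2)) + hh * (K2 * κ * η * (N : ℝ) ^ 2) := by
            rw [hc2]; ring
        _ ≤ _ := by gcongr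
    have q4 : c4 * (N * (3 * hh ^ 2)) = hh * hh * (24 * K1 * (N : ℝ) ^ 4) := by
      rw [hc4]; ring
    have q6 : c6 * (N * (3 * hh ^ 3)) ≤ hh * hh * (24 * K3 * (N : ℝ) ^ 4) := by
      calc c6 * (N * (3 * hh ^ 3)) = hh ^ 3 * (24 * K3 * (N : ℝ) ^ 4) := by rw [hc6]; ring
        _ ≤ _ := by gcongr
    have q7 : hh * (hh * KT) ≤ hh * (ε / 4) := mul_le_mul_of_nonneg_left hhKT hst
    have q8 : hh * (hh * KT) = hh * hh * (ε₁ * (2 * κ ^ 2) + K1 * (8 * κ ^ 4) + K2 * (κ / η) +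
        K2 * κ ^ 2 + K3 * (8 * κ ^ 4)) + hh * hh * (24 * K1 * (N : ℝ) ^ 4) +
        hh * hh * (24 * K3 * (N : ℝ) ^ 4) := by rw [hKT]; ring
    linarith
  -- conclusion
  have hAm : MeasurableSet A := π.full.le s A hA
  have hfin : ∫ ω in A, (f (π.X t ω, clock π.J t ω) - f (π.X s ω, clock π.J s ω) - G ω) ∂P =
      ∫ ω, A.indicator (fun ω => f (Zp π t ω) - f (Zp π s ω) - G ω) ω ∂P := by
    rw [integral_indicator hAm]
    rfl
  change |∫ ω in A, (f (π.X t ω, clock π.J t ω) - f (π.X s ω, clock π.J s ω) - G ω) ∂P| ≤ ε * hh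
  rw [hfin]
  by_cases hint : Integrable (A.indicator (fun ω => f (Zp π t ω) - f (Zp π s ω) - G ω)) P
  · have e1 : ∫ ω, A.indicator (fun ω => f (Zp π t ω) - f (Zp π s ω) - G ω) ω ∂P =
        ∫ ω, (A.indicator (fun ω => f (Zp π t ω) - f (Zp π s ω) - G ω) ω -
          A.indicator (T34 π f s t) ω) ∂P := by
      rw [integral_sub hint hTi, hT0, sub_zero]
    rw [e1]
    have e2 := norm_integral_le_of_norm_le iB (f := fun ω =>
      A.indicator (fun ω => f (Zp π t ω) - f (Zp π s ω) - G ω) ω -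
          A.indicator (T34 π f s t) ω) (Filter.Eventually.of_forall fun ω => ?_)
    · rw [Real.norm_eq_abs] at e2
      exact e2.trans vB
    · by_cases hω : ω ∈ A
      · simp only [Set.indicator_of_mem hω]
        rw [Real.norm_eq_abs]
        exact pt ω hω
      · simp only [Set.indicator_of_notMem hω, sub_zero, norm_zero]
        have := hS20 ω
        have := hS40 ω
        have := hS60 ω
        positivity
  · rw [integral_undef hint, abs_zero]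
    positivity

end H70.FL
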